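import Mathlib

set_option autoImplicit false

namespace Pool.Agent.H.MP_d56329_co

open Finset

theorem brown (T : Finset ℝ) : ∀ b : ℝ, (∀ t ∈ T, b < t) → ∃ δ : ℝ, 0 < δ ∧ ∀ a : ℝ → ℝ,
    δ * ∑ t ∈ T, a t ^ 2 ≤ ∑ t ∈ T, ∑ u ∈ T, (min t u - b) * a t * a u := by
  classical
  induction T using Finset.induction_on_min with
  | empty => intro b _; exact ⟨1, one_pos, fun a => by simp⟩
  | insert m s hm ih =>
    intro b hb
    obtain ⟨δ, hδ, h⟩ := ih m hm
    have hmb : 0 < m - b := sub_pos.2 (hb m (mem_insert_self _ _))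
    have hn : m ∉ s := fun c => lt_irrefl _ (hm m c)
    have hc : (0 : ℝ) ≤ s.card := Nat.cast_nonneg _
    refine ⟨min ((m - b) / 2) (δ / (1 + 2 * s.card)), lt_min (by positivity) (by positivity),
      fun a => ?_⟩
    set D := min ((m - b) / 2) (δ / (1 + 2 * s.card)) with hD
    have d1 : D ≤ (m - b) / 2 := min_le_left _ _
    have d2 : D * (1 + 2 * s.card) ≤ δ := by
      rw [← le_div_iff₀ (by positivity)]; exact min_le_right _ _
    have d0 : 0 < D := lt_min (by positivity) (by positivity)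
    have e : ∑ t ∈ insert m s, ∑ u ∈ insert m s, (min t u - b) * a t * a u =
        (m - b) * (a m + ∑ t ∈ s, a t) ^ 2 + ∑ t ∈ s, ∑ u ∈ s, (min t u - m) * a t * a u := by
      rw [sum_insert hn, sum_insert hn]
      have e1 : ∑ u ∈ s, (min m u - b) * a m * a u = (m - b) * a m * ∑ t ∈ s, a t := by
        rw [mul_sum]; exact sum_congr rfl fun u hu => by rw [min_eq_left (hm u hu).le]
      have e2 : ∑ t ∈ s, ∑ u ∈ insert m s, (min t u - b) * a t * a u =
          ∑ t ∈ s, ((m - b) * (a m + ∑ u ∈ s, a u) * a t +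
            ∑ u ∈ s, (min t u - m) * a t * a u) := by
        refine sum_congr rfl fun t ht => ?_
        rw [sum_insert hn, min_eq_right (hm t ht).le, mul_add, add_mul, add_assoc, mul_sum,
          sum_mul, ← sum_add_distrib]
        congr 1
        · ring
        · exact sum_congr rfl fun u _ => by ring
      rw [e1, e2, sum_add_distrib, ← mul_sum, min_self]
      ring
    rw [e, sum_insert hn]
    have cs : (∑ t ∈ s, a t) ^ 2 ≤ s.card * ∑ t ∈ s, a t ^ 2 := sq_sum_le_card_mul_sum_sq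
    have h1 := h a
    have p0 : 0 ≤ ∑ t ∈ s, a t ^ 2 := sum_nonneg fun t _ => sq_nonneg _
    set X := ∑ t ∈ s, a t
    set Y := ∑ t ∈ s, a t ^ 2
    have q1 : a m ^ 2 ≤ 2 * (a m + X) ^ 2 + 2 * X ^ 2 := by nlinarith [sq_nonneg (a m + 2 * X)]
    have q2 : D * a m ^ 2 ≤ D * (2 * (a m + X) ^ 2 + 2 * (s.card * Y)) :=
      mul_le_mul_of_nonneg_left (by linarith) d0.le
    have q3 : D * 2 * (a m + X) ^ 2 ≤ (m - b) * (a m + X) ^ 2 :=
      mul_le_mul_of_nonneg_right (by linarith) (sq_nonneg _)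
    have q4 : D * (1 + 2 * s.card) * Y ≤ δ * Y := mul_le_mul_of_nonneg_right d2 p0
    nlinarith

theorem negtype {ι : Type} [Fintype ι] (s : ι → ℝ) : ∃ δ : ℝ, 0 < δ ∧ ∀ x : ι → ℝ, ∑ i, x i = 0 →
    0 ≤ ∑ i, ∑ j, (if s i = s j then 1 else 0) * x i * x j ∧
    δ * ∑ i, ∑ j, (if s i = s j then 1 else 0) * x i * x j +
      ∑ i, ∑ j, |s i - s j| * x i * x j ≤ 0 := by
  classical
  obtain ⟨b, hb⟩ : ∃ b : ℝ, ∀ i, b < s i := by
    obtain ⟨b, hb⟩ := (Set.finite_range s).bddBelow
    exact ⟨b - 1, fun i => by have := hb ⟨i, rfl⟩; linarith⟩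
  obtain ⟨δ, hδ, h⟩ := brown (univ.image s) b (by simpa using hb)
  refine ⟨2 * δ, by positivity, fun x hx => ?_⟩
  set a : ℝ → ℝ := fun t => ∑ i with s i = t, x i with ha
  have fib : ∀ g : ℝ → ℝ, ∑ i, g (s i) * x i = ∑ t ∈ univ.image s, g t * a t := by
    intro g
    rw [← sum_fiberwise_of_maps_to (s := univ) (t := univ.image s) (g := s)
      (fun i _ => mem_image_of_mem s (mem_univ i))]
    refine sum_congr rfl fun t _ => ?_
    rw [ha, mul_sum]
    exact sum_congr rfl fun i hi => by rw [(mem_filter.1 hi).2]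
  have fib2 : ∀ k : ℝ → ℝ → ℝ, ∑ i, ∑ j, k (s i) (s j) * x i * x j =
      ∑ t ∈ univ.image s, ∑ u ∈ univ.image s, k t u * a t * a u := by
    intro k
    have e1 : ∀ i, ∑ j, k (s i) (s j) * x i * x j =
        (∑ u ∈ univ.image s, k (s i) u * a u) * x i := by
      intro i
      rw [← fib (k (s i)), sum_mul]
      exact sum_congr rfl fun j _ => by ring
    simp only [e1]
    rw [fib fun t => ∑ u ∈ univ.image s, k t u * a u]
    refine sum_congr rfl fun t _ => ?_
    rw [sum_mul]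
    exact sum_congr rfl fun j _ => by ring
  have e1 : ∑ i, ∑ j, (if s i = s j then 1 else 0) * x i * x j =
      ∑ t ∈ univ.image s, a t ^ 2 := by
    rw [fib2 fun t u => if t = u then 1 else 0]
    refine sum_congr rfl fun t ht => ?_
    rw [sum_eq_single t (fun u _ hu => by simp [hu.symm]) (fun c => (c ht).elim)]
    simp [sq]
  have e2 : ∑ i, ∑ j, |s i - s j| * x i * x j =
      -2 * ∑ i, ∑ j, (min (s i) (s j) - b) * x i * x j := by
    have : ∀ i j, |s i - s j| * x i * x j = -2 * ((min (s i) (s j) - b) * x i * x j) +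
        ((s i - b) * x i * x j + x i * ((s j - b) * x j)) := by
      intro i j
      rcases le_total (s i) (s j) with c | c
      · rw [abs_of_nonpos (by linarith), min_eq_left c]; ring
      · rw [abs_of_nonneg (by linarith), min_eq_right c]; ring
    simp only [this, sum_add_distrib, ← mul_sum, ← sum_mul, hx]
    ring
  rw [e1, e2, fib2 fun t u => min t u - b]
  refine ⟨sum_nonneg fun t _ => sq_nonneg _, ?_⟩
  have := h a
  linarith

/-- The quadratic form attached to signs and slopes. -/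
noncomputable def MM {ι : Type} [DecidableEq ι] (ε s : ι → ℝ) (δ : ℝ) (i j : ι) : ℝ :=
  if i = j then 0 else
    (1 + 3 * ε i * ε j) * |s i - s j| + δ * (1 + ε i * ε j) * (if s i = s j then 1 else 0)

def QQ {ι : Type} [Fintype ι] (M : ι → ι → ℝ) (x : ι → ℝ) : ℝ := ∑ i, ∑ j, M i j * x i * x j

theorem QQ_smul {ι : Type} [Fintype ι] (M : ι → ι → ℝ) (c : ℝ) (x : ι → ℝ) :
    QQ M (c • x) = c ^ 2 * QQ M x := by
  simp only [QQ, mul_sum, Pi.smul_apply, smul_eq_mul]
  exact sum_congr rfl fun i _ => sum_congr rfl fun j _ => by ring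

theorem QQ_three {ι : Type} [Fintype ι] [DecidableEq ι] (M : ι → ι → ℝ) (i j k : ι) (a b c : ℝ) :
    QQ M (Pi.single i a + Pi.single j b + Pi.single k c) =
      M i i * a * a + M i j * a * b + M i k * a * c + M j i * b * a + M j j * b * b +
        M j k * b * c + M k i * c * a + M k j * c * b + M k k * c * c := by
  simp only [QQ, Pi.add_apply, Pi.single_apply, mul_add, add_mul, sum_add_distrib, mul_ite,
    ite_mul, mul_zero, zero_mul, sum_ite_eq', mem_univ, if_true, sum_ite_irrel, sum_const_zero]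
  ring

theorem neg_def {ι : Type} [Fintype ι] [DecidableEq ι] (ε s : ι → ℝ) :
    ∃ δ : ℝ, 0 < δ ∧ ∀ x : ι → ℝ, ∑ i, x i = 0 → ∑ i, ε i * x i = 0 →
      QQ (MM ε s δ) x ≤ -δ * ∑ i, x i ^ 2 := by
  obtain ⟨δ, hδ, h⟩ := negtype s
  refine ⟨δ, hδ, fun x h1 h2 => ?_⟩
  obtain ⟨-, a2⟩ := h x h1
  obtain ⟨b1, b2⟩ := h (fun i => ε i * x i) h2
  have e : QQ (MM ε s δ) x = (δ * ∑ i, ∑ j, (if s i = s j then 1 else 0) * x i * x j +
      ∑ i, ∑ j, |s i - s j| * x i * x j) +
      (δ * ∑ i, ∑ j, (if s i = s j then 1 else 0) * (ε i * x i) * (ε j * x j) +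
      3 * ∑ i, ∑ j, |s i - s j| * (ε i * x i) * (ε j * x j)) -
      ∑ i, (δ * x i ^ 2 + δ * (ε i * x i) ^ 2) := by
    simp only [QQ, mul_sum, ← sum_add_distrib, ← sum_sub_distrib]
    refine sum_congr rfl fun i _ => ?_
    rw [eq_sub_iff_add_eq, ← add_sum_erase _ _ (mem_univ i), ← add_sum_erase _ _ (mem_univ i)]
    have : ∑ j ∈ univ.erase i, MM ε s δ i j * x i * x j = ∑ j ∈ univ.erase i,
        (δ * ((if s i = s j then 1 else 0) * x i * x j) + |s i - s j| * x i * x j +
        (δ * ((if s i = s j then 1 else 0) * (ε i * x i) * (ε j * x j)) +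
        3 * (|s i - s j| * (ε i * x i) * (ε j * x j)))) := by
      refine sum_congr rfl fun j hj => ?_
      rw [MM, if_neg (ne_of_mem_erase hj).symm]
      ring
    rw [this]
    simp [MM]
    ring
  have p : 0 ≤ ∑ i, δ * (ε i * x i) ^ 2 := sum_nonneg fun i _ => by positivity
  have b3 := mul_nonneg hδ.le b1
  rw [e, sum_add_distrib, ← mul_sum]
  linarith

theorem vanish {ι : Type} [Fintype ι] [DecidableEq ι] (ε s : ι → ℝ) (δ : ℝ)
    (hε : ∀ i, ε i = 0 ∨ ε i = 1 ∨ ε i = -1) (x : ι → ℝ) (x0 : ∀ i, 0 ≤ x i)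
    (h1 : ∑ i, ε i * x i = 0) (h2 : ∑ i, s i * (ε i * x i) = 0)
    (hm : ∀ w : ι → ℝ, ∑ i, ε i * w i = 0 → ∑ i, s i * (ε i * w i) = 0 →
      (∀ i, x i = 0 → w i = 0) → ∃ c : ℝ, w = c • x) : QQ (MM ε s δ) x = 0 := by
  have sm : ∀ (f : ι → ℝ) (i j k : ι) (a b c : ℝ),
      ∑ m, f m * (Pi.single i a + Pi.single j b + Pi.single k c : ι → ℝ) m =
        f i * a + f j * b + f k * c := by
    intro f i j k a b c
    simp [Pi.single_apply, mul_add, sum_add_distrib]
  have key : ∀ (i j k : ι) (a b c : ℝ), x i ≠ 0 → x j ≠ 0 → x k ≠ 0 →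
      ε i * a + ε j * b + ε k * c = 0 → s i * ε i * a + s j * ε j * b + s k * ε k * c = 0 →
      ∃ r : ℝ, (Pi.single i a + Pi.single j b + Pi.single k c : ι → ℝ) = r • x := by
    intro i j k a b c hi hj hk e1 e2
    refine hm _ ((sm ε i j k a b c).trans e1) ?_ fun m hm0 => ?_
    · rw [← e2, ← sm (fun m => s m * ε m)]
      exact sum_congr rfl fun m _ => by ring
    · have n1 : m ≠ i := fun c => hi (c ▸ hm0)
      have n2 : m ≠ j := fun c => hj (c ▸ hm0)
      have n3 : m ≠ k := fun c => hk (c ▸ hm0)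
      simp [n1, n2, n3]
  have fin : ∀ (w : ι → ℝ) (r : ℝ) (i : ι), w = r • x → w i ≠ 0 → QQ (MM ε s δ) w = 0 →
      QQ (MM ε s δ) x = 0 := by
    intro w r i e hw hq
    rw [e, QQ_smul] at hq
    have : r ≠ 0 := by rintro rfl; simp [e] at hw
    simpa [this] using hq
  have dg : ∀ i, MM ε s δ i i = 0 := fun i => by simp [MM]
  by_cases c1 : ∃ i, x i ≠ 0 ∧ ε i = 0
  · obtain ⟨i, hi, e0⟩ := c1
    obtain ⟨r, hr⟩ := key i i i 1 0 0 hi hi hi (by simp [e0]) (by simp [e0])
    exact fin _ r i hr (by simp) (by rw [QQ_three]; simp [dg])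
  have sg : ∀ i, x i ≠ 0 → ε i = 1 ∨ ε i = -1 := fun i hi =>
    (hε i).resolve_left fun c => c1 ⟨i, hi, c⟩
  have sq1 : ∀ i, x i ≠ 0 → ε i * ε i = 1 := fun i hi => by
    rcases sg i hi with c | c <;> simp [c]
  have pos : ∀ i, x i ≠ 0 → 0 < x i := fun i hi => lt_of_le_of_ne (x0 i) hi.symm
  by_cases c2 : ∃ i j, x i ≠ 0 ∧ x j ≠ 0 ∧ i ≠ j ∧ s i = s j
  · obtain ⟨i, j, hi, hj, hij, e⟩ := c2
    obtain ⟨r, hr⟩ := key i j j (ε i) (-ε j) 0 hi hj hj
      (by linear_combination sq1 i hi - sq1 j hj)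
      (by rw [e]; linear_combination s j * sq1 i hi - s j * sq1 j hj)
    have a1 := congrFun hr i
    have a2 := congrFun hr j
    simp [hij, hij.symm] at a1 a2
    have p1 := pos i hi
    have p2 := pos j hj
    have ee : ε i * ε j = -1 := by
      rcases sg i hi with c | c <;> rcases sg j hj with c' | c' <;> rw [c] at a1 <;>
        rw [c'] at a2 <;> simp [c, c'] <;> nlinarith [mul_pos p1 p2]
    refine fin _ r i hr (by simpa [hij] using fun c => c1 ⟨i, hi, c⟩) ?_
    rw [QQ_three]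
    simp [dg, MM, hij, hij.symm, e, ee, mul_comm (ε j)]
  have ds : ∀ i j, x i ≠ 0 → x j ≠ 0 → i ≠ j → s i ≠ s j := fun i j hi hj hij e =>
    c2 ⟨i, j, hi, hj, hij, e⟩
  by_cases c3 : ∃ i j k, x i ≠ 0 ∧ x j ≠ 0 ∧ x k ≠ 0 ∧ s i < s j ∧ s j < s k
  · obtain ⟨i, j, k, hi, hj, hk, l1, l2⟩ := c3
    have n1 : i ≠ j := fun c => l1.ne (c ▸ rfl)
    have n2 : j ≠ k := fun c => l2.ne (c ▸ rfl)
    have n3 : i ≠ k := fun c => (l1.trans l2).ne (c ▸ rfl)
    obtain ⟨r, hr⟩ := key i j k (ε i * (s k - s j)) (ε j * (s i - s k)) (ε k * (s j - s i))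
      hi hj hk
      (by
        linear_combination (s k - s j) * sq1 i hi + (s i - s k) * sq1 j hj +
          (s j - s i) * sq1 k hk)
      (by
        linear_combination s i * (s k - s j) * sq1 i hi + s j * (s i - s k) * sq1 j hj +
          s k * (s j - s i) * sq1 k hk)
    have a1 := congrFun hr i
    have a2 := congrFun hr j
    have a3 := congrFun hr k
    simp [n1, n2, n3, n1.symm, n2.symm, n3.symm] at a1 a2 a3
    have p1 := pos i hi
    have p2 := pos j hj
    have p3 := pos k hk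
    have g1 : 0 < s k - s j := by linarith
    have g2 : 0 < s j - s i := by linarith
    have g3 : 0 < s k - s i := by linarith
    have r0 : r ≠ 0 := by
      rintro rfl
      rcases sg i hi with c | c <;> rw [c] at a1 <;> linarith
    have ee : (ε i = 1 ∧ ε j = -1 ∧ ε k = 1) ∨ (ε i = -1 ∧ ε j = 1 ∧ ε k = -1) := by
      rcases lt_or_gt_of_ne r0 with q | q
      · have := mul_neg_of_neg_of_pos q p1
        have := mul_neg_of_neg_of_pos q p2
        have := mul_neg_of_neg_of_pos q p3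
        right
        refine ⟨(sg i hi).resolve_left ?_, (sg j hj).resolve_right ?_, (sg k hk).resolve_left ?_⟩
        · intro c; rw [c] at a1; linarith
        · intro c; rw [c] at a2; linarith
        · intro c; rw [c] at a3; linarith
      · have := mul_pos q p1
        have := mul_pos q p2
        have := mul_pos q p3
        left
        refine ⟨(sg i hi).resolve_right ?_, (sg j hj).resolve_left ?_, (sg k hk).resolve_right ?_⟩
        · intro c; rw [c] at a1; linarith
        · intro c; rw [c] at a2; linarith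
        · intro c; rw [c] at a3; linarith
    refine fin _ r i hr ?_ ?_
    · rw [hr]; simpa [r0] using hi
    · rw [QQ_three]
      have b1 : |s i - s j| = s j - s i := by rw [abs_of_neg (by linarith)]; ring
      have b2 : |s j - s k| = s k - s j := by rw [abs_of_neg (by linarith)]; ring
      have b3 : |s i - s k| = s k - s i := by rw [abs_of_neg (by linarith)]; ring
      simp only [MM, if_true, if_neg n1, if_neg n2, if_neg n3, if_neg n1.symm, if_neg n2.symm,
        if_neg n3.symm, if_neg l1.ne, if_neg l2.ne, if_neg (l1.trans l2).ne, if_neg l1.ne',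
        if_neg l2.ne', if_neg (l1.trans l2).ne', b1, b2, b3, abs_of_pos g1, abs_of_pos g2,
        abs_of_pos g3]
      rcases ee with ⟨e1, e2, e3⟩ | ⟨e1, e2, e3⟩ <;> rw [e1, e2, e3] <;> ring
  by_cases c4 : ∀ i, x i = 0
  · simp [QQ, c4]
  exfalso
  push Not at c4
  obtain ⟨i, hi⟩ := c4
  have e0 : ∑ m, (s m - s i) * (ε m * x m) = 0 := by
    simp only [sub_mul, sum_sub_distrib, ← mul_sum, h1, h2]; ring
  by_cases c5 : ∃ j, x j ≠ 0 ∧ j ≠ i
  · obtain ⟨j, hj, hji⟩ := c5
    rw [sum_eq_single j] at e0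
    · have := ds j i hj hi hji
      have e1 : ε j ≠ 0 := fun c => c1 ⟨j, hj, c⟩
      simp [sub_eq_zero, this, e1, hj] at e0
    · intro k _ hkj
      by_cases hki : k = i
      · simp [hki]
      by_cases hk : x k = 0
      · simp [hk]
      exfalso
      have d1 := ds j i hj hi hji
      have d2 := ds k j hk hj hkj
      have d3 := ds k i hk hi hki
      rcases lt_or_gt_of_ne d1 with q1 | q1 <;> rcases lt_or_gt_of_ne d2 with q2 | q2 <;>
        rcases lt_or_gt_of_ne d3 with q3 | q3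
      · exact c3 ⟨k, j, i, hk, hj, hi, q2, q1⟩
      · linarith
      · exact c3 ⟨j, k, i, hj, hk, hi, q2, q3⟩
      · exact c3 ⟨j, i, k, hj, hi, hk, q1, q3⟩
      · exact c3 ⟨k, i, j, hk, hi, hj, q3, q1⟩
      · exact c3 ⟨i, k, j, hi, hk, hj, q3, q2⟩
      · linarith
      · exact c3 ⟨i, j, k, hi, hj, hk, q1, q2⟩
    · simp
  · push Not at c5
    rw [sum_eq_single i (fun k _ hk => by
      have : x k = 0 := by by_contra c; exact hk (c5 k c)
      simp [this]) (by simp)] at h1
    have e1 : ε i ≠ 0 := fun c => c1 ⟨i, hi, c⟩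
    simp [e1, hi] at h1

end Pool.Agent.H.MP_d56329_co
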