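import Mathlib
import Pool.Agent.H.MP_d56329_co.A

set_option autoImplicit false

namespace Pool.Agent.H.MP_d56329_co

open Set Module
open scoped RealInnerProductSpace

abbrev E (d : ℕ) := EuclideanSpace ℝ (Fin d)

theorem form {ι : Type} [Fintype ι] (U : Submodule ℝ (ι → ℝ))
    (hU : Fintype.card ι ≤ finrank ℝ U + 2) :
    ∃ (ρ : ι → ℝ) (M : ι → ι → ℝ), (∀ i, 0 < ρ i) ∧ (∀ i j, M i j = M j i) ∧
      (∀ u ∈ U, ∑ i, ρ i * u i = 0 → u ≠ 0 → QQ M u < 0) ∧
      ∀ u ∈ U, (∀ i, 0 ≤ u i) → (∀ w ∈ U, (∀ i, u i = 0 → w i = 0) → ∃ c : ℝ, w = c • u) →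
        QQ M u = 0 := by
  classical
  have h1 := U.finrank_quotient_add_finrank
  rw [Module.finrank_fintype_fun_eq_card] at h1
  obtain ⟨φ, hφ⟩ := (finrank_le_iff_exists_linearMap (R := ℝ) (M := (ι → ℝ) ⧸ U)
    (M' := ℝ × ℝ)).1 (by simp; omega)
  let G : (ι → ℝ) →ₗ[ℝ] ℝ × ℝ := φ ∘ₗ U.mkQ
  have hG : ∀ u, G u = 0 ↔ u ∈ U := fun u => by
    simp only [G, LinearMap.comp_apply, map_eq_zero_iff φ hφ, Submodule.mkQ_apply,
      Submodule.Quotient.mk_eq_zero]
  let g : ι → ℝ × ℝ := fun i => G (Pi.single i 1)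
  have hg : ∀ u, G u = ∑ i, u i • g i := fun u => by
    conv_lhs => rw [← Finset.univ_sum_single u]
    rw [map_sum]
    refine Finset.sum_congr rfl fun i _ => ?_
    rw [← map_smul, ← Pi.single_smul', smul_eq_mul, mul_one]
  obtain ⟨θ, hθ⟩ := (Set.finite_range fun i => -(g i).1 / (g i).2).exists_notMem
  let p : ι → ℝ := fun i => (g i).1 + θ * (g i).2
  have pq : ∀ i, p i = 0 → (g i).2 = 0 := by
    intro i hi
    by_contra c
    refine hθ ⟨i, ?_⟩
    simp only [p] at hi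
    field_simp
    linarith
  let ρ : ι → ℝ := fun i => if p i = 0 then 1 else |p i|
  let ε : ι → ℝ := fun i => p i / ρ i
  let s : ι → ℝ := fun i => (g i).2 / p i
  have ρ0 : ∀ i, 0 < ρ i := fun i => by
    simp only [ρ]; split_ifs with c
    · exact one_pos
    · exact abs_pos.2 c
  have e1 : ∀ i (t : ℝ), ε i * (ρ i * t) = p i * t := fun i t => by
    have := (ρ0 i).ne'
    simp only [ε]; field_simp
  have e2 : ∀ i (t : ℝ), s i * (ε i * (ρ i * t)) = (g i).2 * t := fun i t => by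
    rw [e1]
    by_cases c : p i = 0
    · simp [c, pq i c]
    · simp only [s]; field_simp
  have mem : ∀ u : ι → ℝ, u ∈ U ↔
      ∑ i, ε i * (ρ i * u i) = 0 ∧ ∑ i, s i * (ε i * (ρ i * u i)) = 0 := by
    intro u
    simp only [e2]
    simp only [e1]
    rw [← hG, hg, Prod.ext_iff]
    simp only [Prod.fst_sum, Prod.snd_sum, Prod.smul_fst, Prod.smul_snd, smul_eq_mul,
      Prod.fst_zero, Prod.snd_zero, p, add_mul, Finset.sum_add_distrib, mul_assoc,
      ← Finset.mul_sum, mul_comm (u _)]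
    constructor
    · rintro ⟨a, b⟩; exact ⟨by rw [a, b]; ring, b⟩
    · rintro ⟨a, b⟩; exact ⟨by rw [b] at a; linarith, b⟩
  obtain ⟨δ, hδ, hn⟩ := neg_def ε s
  have qq : ∀ u : ι → ℝ, QQ (fun i j => MM ε s δ i j * (ρ i * ρ j)) u =
      QQ (MM ε s δ) fun i => ρ i * u i := fun u =>
    Finset.sum_congr rfl fun i _ => Finset.sum_congr rfl fun j _ => by ring
  refine ⟨ρ, fun i j => MM ε s δ i j * (ρ i * ρ j), ρ0, fun i j => ?_, fun u hu h0 hne => ?_,
    fun u hu h0 hm => ?_⟩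
  · simp only [MM, eq_comm (a := i), eq_comm (a := s i), abs_sub_comm (s i)]
    split_ifs <;> ring
  · rw [qq]
    refine lt_of_le_of_lt (hn _ h0 ((mem u).1 hu).1) ?_
    obtain ⟨i, hi⟩ := Function.ne_iff.1 hne
    have : 0 < ∑ i, (ρ i * u i) ^ 2 := Finset.sum_pos' (fun i _ => sq_nonneg _)
      ⟨i, Finset.mem_univ _, sq_pos_of_ne_zero (mul_ne_zero (ρ0 i).ne' hi)⟩
    nlinarith
  · rw [qq]
    refine vanish ε s δ (fun i => ?_) _ (fun i => mul_nonneg (ρ0 i).le (h0 i))
      ((mem u).1 hu).1 ((mem u).1 hu).2 fun w w1 w2 w3 => ?_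
    · simp only [ε, ρ]
      rcases lt_trichotomy (p i) 0 with c | c | c
      · right; right; rw [if_neg c.ne, abs_of_neg c]; field_simp [c.ne]
      · left; simp [c]
      · right; left; rw [if_neg c.ne', abs_of_pos c]; field_simp
    · have k : ∀ i, ρ i * (w i / ρ i) = w i := fun i => by have := (ρ0 i).ne'; field_simp
      obtain ⟨c, hc⟩ := hm (fun i => w i / ρ i) ((mem _).2 (by simp only [k]; exact ⟨w1, w2⟩))
        fun i hi => by simp [w3 i (by simp [hi])]
      refine ⟨c, funext fun i => ?_⟩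
      have := congrFun hc i
      simp only [Pi.smul_apply, smul_eq_mul] at this ⊢
      rw [← k i, this]; ring

theorem sqrtform {d : ℕ} (B : LinearMap.BilinForm ℝ (E d)) (hs : LinearMap.IsSymm B)
    (hp : ∀ x, x ≠ 0 → 0 < B x x) : ∃ A : E d ≃ₗ[ℝ] E d, ∀ x, ‖A x‖ ^ 2 = B x x := by
  classical
  obtain ⟨v0, hv0⟩ := LinearMap.BilinForm.exists_orthogonal_basis (K := ℝ) hs
  have hd : finrank ℝ (E d) = d := by simp
  let v : Basis (Fin d) ℝ (E d) := v0.reindex (finCongr hd)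
  have hv : ∀ i j, i ≠ j → B (v i) (v j) = 0 := by
    intro i j h
    simp only [v, Basis.reindex_apply]
    exact hv0 fun c => h ((finCongr hd).symm.injective c)
  let A : E d →ₗ[ℝ] E d :=
    { toFun := fun x => WithLp.toLp 2 fun i => √(B (v i) (v i)) * v.repr x i
      map_add' := fun x y => by ext i; simp [mul_add]
      map_smul' := fun c x => by ext i; simp; ring }
  have hA : ∀ x, ‖A x‖ ^ 2 = B x x := by
    intro x
    rw [EuclideanSpace.norm_sq_eq]
    conv_rhs => rw [← v.sum_repr x]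
    simp only [map_sum, map_smul, LinearMap.sum_apply, LinearMap.smul_apply, smul_eq_mul]
    refine Finset.sum_congr rfl fun i _ => ?_
    rw [Finset.sum_eq_single i (fun j _ h => by rw [hv j i h, mul_zero]) (by simp)]
    have := Real.sq_sqrt (hp _ (v.ne_zero i)).le
    simp only [A, LinearMap.coe_mk, AddHom.coe_mk, Real.norm_eq_abs, sq_abs, mul_pow, this]
    ring
  have inj : Function.Injective A := by
    rw [injective_iff_map_eq_zero]
    intro x hx
    by_contra c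
    have := hp x c
    rw [← hA, hx] at this
    simp at this
  exact ⟨LinearEquiv.ofInjectiveEndo A inj, hA⟩

theorem small {ι : Type} [Finite ι] (a b : ι → ℝ) (ha : ∀ i, 0 ≤ a i)
    (h : ∀ i, a i = 0 → b i = 0) : ∃ τ : ℝ, 0 < τ ∧ ∀ i, τ * b i ≤ a i ∧ -a i ≤ τ * b i := by
  have : ∀ᶠ τ in nhdsWithin (0 : ℝ) (Ioi 0), ∀ i, τ * b i ≤ a i ∧ -a i ≤ τ * b i := by
    refine Filter.eventually_all.2 fun i => ?_
    rcases (ha i).eq_or_lt with c | c
    · simp [h i c.symm, ← c]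
    · have t : Filter.Tendsto (fun τ : ℝ => τ * b i) (nhds 0) (nhds 0) := by
        simpa using (continuous_mul_const (b i)).tendsto 0
      refine Filter.Eventually.filter_mono nhdsWithin_le_nhds ?_
      filter_upwards [t.eventually (Icc_mem_nhds (neg_lt_zero.2 c) c)] with τ hτ
      exact ⟨hτ.2, hτ.1⟩
  obtain ⟨τ, h1, h2⟩ := (this.and self_mem_nhdsWithin).exists
  exact ⟨τ, h2, h1⟩

theorem ext_zero {d : ℕ} {K : Set (E d)} {x z : E d} (hx : x ∈ K.extremePoints ℝ)
    (h1 : x + z ∈ K) (h2 : x - z ∈ K) : z = 0 := by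
  have := hx.2 h1 h2 ⟨1 / 2, 1 / 2, by norm_num, by norm_num, by norm_num, by module⟩
  simpa using this

theorem face_eq {d : ℕ} (V : Set (E d)) (c : ℝ) (f : E d →L[ℝ] ℝ) (h : ∀ v ∈ V, 0 ≤ c + f v) :
    (∀ x ∈ convexHull ℝ V, 0 ≤ c + f x) ∧
    {x ∈ convexHull ℝ V | c + f x = 0} = convexHull ℝ {v ∈ V | c + f v = 0} := by
  have aff : ∀ (x y : E d) (a b : ℝ), a + b = 1 →
      c + f (a • x + b • y) = a * (c + f x) + b * (c + f y) := by
    intro x y a b e
    simp only [map_add, map_smul, smul_eq_mul]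
    linear_combination -c * e
  have k : convexHull ℝ V ⊆
      {x | 0 ≤ c + f x ∧ (c + f x = 0 → x ∈ convexHull ℝ {v ∈ V | c + f v = 0})} := by
    refine convexHull_min (fun v hv => ⟨h v hv, fun e => subset_convexHull ℝ _ ⟨hv, e⟩⟩) ?_
    rintro x ⟨x1, x2⟩ y ⟨y1, y2⟩ a b ha hb e
    have p1 := mul_nonneg ha x1
    have p2 := mul_nonneg hb y1
    refine ⟨by rw [aff x y a b e]; linarith, fun z => ?_⟩
    rw [aff x y a b e] at z
    rcases ha.eq_or_lt with rfl | a0
    · obtain rfl : b = 1 := by linarith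
      simpa using y2 (by linarith)
    rcases hb.eq_or_lt with rfl | b0
    · obtain rfl : a = 1 := by linarith
      simpa using x2 (by linarith)
    exact convex_convexHull ℝ _ (x2 (by nlinarith)) (y2 (by nlinarith)) ha hb e
  refine ⟨fun x hx => (k hx).1, Subset.antisymm (fun x hx => (k hx.1).2 hx.2) ?_⟩
  refine convexHull_min (fun v hv => ⟨subset_convexHull ℝ _ hv.1, hv.2⟩) ?_
  rintro x ⟨x1, x2⟩ y ⟨y1, y2⟩ a b ha hb e
  exact ⟨convex_convexHull ℝ _ x1 y1 ha hb e, by rw [aff x y a b e, x2, y2]; ring⟩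

theorem exp_zero {d : ℕ} (P : Set (E d)) (c : ℝ) (f : E d →L[ℝ] ℝ) (h : ∀ x ∈ P, 0 ≤ c + f x) :
    IsExposed ℝ P {x ∈ P | c + f x = 0} := by
  rintro ⟨x0, hx0, h0⟩
  refine ⟨-f, ?_⟩
  ext x
  simp only [mem_ofPred_eq, ContinuousLinearMap.neg_apply]
  constructor
  · rintro ⟨a, b⟩; exact ⟨a, fun y hy => by linarith [h y hy]⟩
  · rintro ⟨a, b⟩; exact ⟨a, by linarith [h x a, b x0 hx0]⟩

theorem zero_exp {d : ℕ} {P F : Set (E d)} (hF : IsExposed ℝ P F) (hne : F.Nonempty) :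
    ∃ (c : ℝ) (f : E d →L[ℝ] ℝ), (∀ x ∈ P, 0 ≤ c + f x) ∧ F = {x ∈ P | c + f x = 0} := by
  obtain ⟨l, rfl⟩ := hF hne
  obtain ⟨x0, a, b⟩ := hne
  refine ⟨l x0, -l, fun x hx => by simpa using b x hx, ?_⟩
  ext x
  simp only [mem_ofPred_eq, ContinuousLinearMap.neg_apply]
  constructor
  · rintro ⟨p, q⟩; exact ⟨p, by linarith [q x0 a, b x p]⟩
  · rintro ⟨p, q⟩; exact ⟨p, fun y hy => by linarith [b y hy]⟩

def Cut {d : ℕ} (V A : Set (E d)) : Prop :=
  A = ∅ ∨ ∃ (c : ℝ) (f : E d →L[ℝ] ℝ), (∀ v ∈ V, 0 ≤ c + f v) ∧ ∀ v ∈ V, (c + f v = 0 ↔ v ∈ A)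

theorem exposed_of {d : ℕ} {V A : Set (E d)} (hA : A ⊆ V) (h : Cut V A) :
    IsExposed ℝ (convexHull ℝ V) (convexHull ℝ A) := by
  rcases h with rfl | ⟨c, f, h1, h2⟩
  · simpa using isExposed_empty
  · obtain ⟨a, b⟩ := face_eq V c f h1
    have : {v ∈ V | c + f v = 0} = A :=
      Set.ext fun v => ⟨fun q => (h2 v q.1).1 q.2, fun q => ⟨hA q, (h2 v (hA q)).2 q⟩⟩
    rw [← this, ← b]
    exact exp_zero _ c f a

theorem exposed_iff {d : ℕ} {V A : Set (E d)} (hA : A ⊆ V)
    (hV : V ⊆ (convexHull ℝ V).extremePoints ℝ) :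
    IsExposed ℝ (convexHull ℝ V) (convexHull ℝ A) ↔ Cut V A := by
  refine ⟨fun h => ?_, exposed_of hA⟩
  rcases A.eq_empty_or_nonempty with e | e
  · exact Or.inl e
  obtain ⟨c, f, h1, h2⟩ := zero_exp h (convexHull_nonempty_iff.2 e)
  refine Or.inr ⟨c, f, fun v hv => h1 v (subset_convexHull ℝ _ hv), fun v hv => ⟨fun q => ?_,
    fun q => ?_⟩⟩
  · have : v ∈ convexHull ℝ A := h2 ▸ ⟨subset_convexHull ℝ _ hv, q⟩
    exact extremePoints_convexHull_subset
      (inter_extremePoints_subset_extremePoints_of_subset (convexHull_mono hA) ⟨this, hV hv⟩)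
  · have : v ∈ convexHull ℝ A := subset_convexHull ℝ _ q
    rw [h2] at this
    exact this.2

theorem faces_finite {d : ℕ} {S : Set (E d)} (hS : S.Finite) :
    {F | IsExposed ℝ (convexHull ℝ S) F}.Finite := by
  refine (hS.powerset.image (convexHull ℝ)).subset fun F hF => ?_
  rcases F.eq_empty_or_nonempty with rfl | e
  · exact ⟨∅, empty_subset _, by simp⟩
  obtain ⟨c, f, h1, h2⟩ := zero_exp hF e
  exact ⟨{v ∈ S | c + f v = 0}, fun v hv => hv.1,
    ((face_eq S c f fun v hv => h1 v (subset_convexHull ℝ _ hv)).2.symm.trans h2.symm)⟩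

theorem hrep {d : ℕ} (hd : 0 < d) (S : Finset (E d)) (o : E d)
    (ho : o ∈ interior (convexHull ℝ (S : Set (E d)))) :
    ∃ Y : Set (E d), Y.Finite ∧
      Y.ncard ≤ {F : Set (E d) | IsExposed ℝ (convexHull ℝ (S : Set (E d))) F ∧ F.Nonempty ∧
        finrank ℝ (vectorSpan ℝ F) + 1 = d}.ncard ∧
      ∀ x, x ∈ convexHull ℝ (S : Set (E d)) ↔ ∀ y ∈ Y, ⟪y, x - o⟫ ≤ 1 := by
  set P := convexHull ℝ (S : Set (E d)) with hP
  let K : Set (E d) := {y | ∀ x ∈ S, ⟪y, x - o⟫ ≤ 1}
  have af : ∀ y x : E d, (1 + ⟪y, o⟫) + (-innerSL ℝ y) x = 1 - ⟪y, x - o⟫ := by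
    intro y x; simp [inner_sub_right]; ring
  have kp : ∀ y ∈ K, ∀ x ∈ P, ⟪y, x - o⟫ ≤ 1 := by
    intro y hy x hx
    have := (face_eq (S : Set (E d)) (1 + ⟪y, o⟫) (-innerSL ℝ y)
      (fun v hv => by rw [af]; linarith [hy v hv])).1 x hx
    rw [af] at this; linarith
  have Kc : Convex ℝ K := by
    intro y hy z hz a b ha hb e x hx
    rw [inner_add_left, real_inner_smul_left, real_inner_smul_left]
    nlinarith [hy x hx, hz x hx]
  have Kcomp : IsCompact K := by
    refine Metric.isCompact_of_isClosed_isBounded ?_ ?_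
    · have : K = ⋂ x ∈ S, {y | ⟪y, x - o⟫ ≤ 1} := by ext y; simp [K]
      rw [this]
      exact isClosed_biInter fun x _ => isClosed_le (by fun_prop) continuous_const
    · obtain ⟨r, r0, hr⟩ := Metric.mem_nhds_iff.1 (mem_interior_iff_mem_nhds.1 ho)
      refine (Metric.isBounded_closedBall (x := (0 : E d)) (r := 2 / r)).subset fun y hy => ?_
      rw [mem_closedBall_zero_iff]
      by_cases y0 : y = 0
      · rw [y0, norm_zero]; positivity
      have n0 : 0 < ‖y‖ := norm_pos_iff.2 y0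
      have := kp y hy (o + (r / 2 / ‖y‖) • y) (hr (by
        rw [mem_ball_iff_norm, add_sub_cancel_left, norm_smul, Real.norm_eq_abs,
          abs_of_pos (by positivity), div_mul_cancel₀ _ n0.ne']
        linarith))
      rw [add_sub_cancel_left, real_inner_smul_right, real_inner_self_eq_norm_sq] at this
      rw [le_div_iff₀ r0]
      have e : r / 2 / ‖y‖ * ‖y‖ ^ 2 = ‖y‖ * r / 2 := by field_simp
      linarith
  have sp : ∀ y ∈ K.extremePoints ℝ, ∀ w : E d,
      (∀ x ∈ S, ⟪y, x - o⟫ = 1 → ⟪w, x - o⟫ = 0) → w = 0 := by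
    intro y hy w hw
    obtain ⟨τ, τ0, hτ⟩ := small (ι := S) (fun x => 1 - ⟪y, x.1 - o⟫) (fun x => ⟪w, x.1 - o⟫)
      (fun x => by linarith [hy.1 x.1 x.2]) fun x hx => hw x.1 x.2 (by linarith)
    have := ext_zero (z := τ • w) hy
      (fun x hx => by
        rw [inner_add_left, real_inner_smul_left]; linarith [(hτ ⟨x, hx⟩).1])
      (fun x hx => by
        rw [inner_sub_left, real_inner_smul_left]; linarith [(hτ ⟨x, hx⟩).2])
    exact (smul_eq_zero.1 this).resolve_left τ0.ne'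
  let φ : E d → Set (E d) := fun y => {x ∈ P | (1 + ⟪y, o⟫) + (-innerSL ℝ y) x = 0}
  have φm : ∀ y x, x ∈ φ y ↔ x ∈ P ∧ ⟪y, x - o⟫ = 1 := fun y x => by
    simp only [φ, mem_ofPred_eq, af, sub_eq_zero, eq_comm (a := (1 : ℝ))]
  have sP : ∀ x ∈ S, x ∈ P := fun x hx => subset_convexHull ℝ _ hx
  have mp : MapsTo φ (K.extremePoints ℝ) {F : Set (E d) | IsExposed ℝ P F ∧ F.Nonempty ∧
      finrank ℝ (vectorSpan ℝ F) + 1 = d} := by
    intro y hy
    obtain ⟨x0, s0, a0⟩ : ∃ x ∈ S, ⟪y, x - o⟫ = 1 := by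
      by_contra c
      push Not at c
      have := sp y hy (EuclideanSpace.single ⟨0, hd⟩ 1) fun x hx e => (c x hx e).elim
      simpa using congrArg (fun z : E d => z ⟨0, hd⟩) this
    have m0 := (φm y x0).2 ⟨sP _ s0, a0⟩
    refine ⟨exp_zero _ _ _ fun x hx => by rw [af]; linarith [kp y hy.1 x hx], ⟨x0, m0⟩, ?_⟩
    have y0 : y ≠ 0 := by rintro rfl; simp at a0
    have e : (vectorSpan ℝ (φ y))ᗮ = Submodule.span ℝ {y} := by
      apply le_antisymm
      · intro w hw
        have := sp y hy (w - ⟪w, x0 - o⟫ • y) fun x hx e => by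
          have q := (Submodule.mem_orthogonal' _ _).1 hw _
            (vsub_mem_vectorSpan ℝ ((φm y x).2 ⟨sP _ hx, e⟩) m0)
          rw [inner_sub_left, real_inner_smul_left, e]
          simp only [vsub_eq_sub, inner_sub_right] at q ⊢
          linarith
        rw [sub_eq_zero.1 this]
        exact Submodule.smul_mem _ _ (Submodule.mem_span_singleton_self y)
      · rw [Submodule.span_singleton_le_iff_mem, Submodule.mem_orthogonal']
        intro u hu
        have : vectorSpan ℝ (φ y) ≤ LinearMap.ker (innerSL ℝ y).toLinearMap := by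
          rw [vectorSpan_def, Submodule.span_le]
          rintro _ ⟨a, ha, b, hb, rfl⟩
          have q1 := ((φm y a).1 ha).2
          have q2 := ((φm y b).1 hb).2
          simp only [inner_sub_right] at q1 q2
          simp only [vsub_eq_sub, SetLike.mem_coe, LinearMap.mem_ker, ContinuousLinearMap.coe_coe,
            innerSL_apply_apply, inner_sub_right]
          linarith
        simpa using this hu
    have := (vectorSpan ℝ (φ y)).finrank_add_finrank_orthogonal
    rwa [e, finrank_span_singleton y0, finrank_euclideanSpace_fin] at this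
  have inj : InjOn φ (K.extremePoints ℝ) := by
    intro y hy z _ e
    refine sub_eq_zero.1 (sp y hy _ fun x hx q => ?_)
    have := (φm z x).1 (e ▸ (φm y x).2 ⟨sP _ hx, q⟩)
    rw [inner_sub_left, q, this.2, sub_self]
  have fin : {F : Set (E d) | IsExposed ℝ P F ∧ F.Nonempty ∧
      finrank ℝ (vectorSpan ℝ F) + 1 = d}.Finite :=
    (faces_finite S.finite_toSet).subset fun F hF => hF.1
  refine ⟨K.extremePoints ℝ, Set.Finite.of_injOn mp inj fin,
    Set.ncard_le_ncard_of_injOn φ mp inj fin, fun x => ⟨fun hx y hy => kp y hy.1 x hx,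
    fun hx => ?_⟩⟩
  by_contra c
  obtain ⟨f, u, h1, h2⟩ := geometric_hahn_banach_closed_point (convex_convexHull ℝ _)
    (S.finite_toSet.isCompact_convexHull ℝ).isClosed c
  have u0 : 0 < u - f o := sub_pos.2 (h1 o (interior_subset ho))
  let y0 : E d := (u - f o)⁻¹ • (InnerProductSpace.toDual ℝ (E d)).symm f
  have hy0 : ∀ z, ⟪y0, z - o⟫ = (f z - f o) / (u - f o) := fun z => by
    rw [real_inner_smul_left, InnerProductSpace.toDual_symm_apply, map_sub]; ring
  have k1 : y0 ∈ K := fun z hz => by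
    rw [hy0, div_le_one u0]; linarith [h1 z (sP z hz)]
  have k2 : K ⊆ {y | ⟪y, x - o⟫ ≤ 1} := by
    rw [← closure_convexHull_extremePoints Kcomp Kc]
    refine closure_minimal (convexHull_min hx ?_) (isClosed_le (by fun_prop) continuous_const)
    intro y hy z hz a b ha hb e
    simp only [mem_ofPred_eq] at hy hz ⊢
    rw [inner_add_left, real_inner_smul_left, real_inner_smul_left]
    nlinarith
  have := k2 k1
  simp only [mem_ofPred_eq] at this
  rw [hy0, div_le_one u0] at this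
  linarith

end Pool.Agent.H.MP_d56329_co
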