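import Mathlib
import Pool.Agent.H.MP_d56329_co.B

set_option autoImplicit false

namespace Pool.Agent.H.MP_d56329_co

open Set Module
open scoped RealInnerProductSpace

theorem proj {d : ℕ} (hd : 0 < d) (P : Set (E d)) (hb : Bornology.IsBounded P) (o : E d)
    (Y : Set (E d)) (hY : Y.Finite) (hc : Y.ncard ≤ d + 3)
    (hP : ∀ x, x ∈ P ↔ ∀ y ∈ Y, ⟪y, x - o⟫ ≤ 1) :
    ∃ (a : ℝ) (b c : E d) (r : ℝ) (A : E d ≃ₗ[ℝ] E d), 0 < a ∧
      (∀ v ∈ P, 0 < a - ⟪b, v - o⟫) ∧
      ∀ v ∈ P.extremePoints ℝ, (a - ⟪b, v - o⟫)⁻¹ • A (v - o) ∈ Metric.sphere c r := by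
  classical
  haveI := hY.fintype
  have bd : ∀ x : E d, (∀ y ∈ Y, ⟪y, x⟫ ≤ 0) → x = 0 := by
    intro x hx
    by_contra x0
    have n0 : 0 < ‖x‖ := norm_pos_iff.2 x0
    obtain ⟨R, hR⟩ := hb.exists_norm_le
    have k : ∀ τ : ℝ, 0 ≤ τ → ‖o + τ • x‖ ≤ R := fun τ h => hR _ ((hP _).2 fun y hy => by
      rw [add_sub_cancel_left, real_inner_smul_right]
      nlinarith [hx y hy])
    have k0 := k 0 le_rfl
    have k1 := k ((2 * R + 1) / ‖x‖) (by
      have : 0 ≤ R := (norm_nonneg _).trans k0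
      positivity)
    have k2 := norm_sub_le (o + ((2 * R + 1) / ‖x‖) • x) (o + (0 : ℝ) • x)
    have e : o + ((2 * R + 1) / ‖x‖) • x - (o + (0 : ℝ) • x) = ((2 * R + 1) / ‖x‖) • x := by
      simp
    have : 0 ≤ R := (norm_nonneg _).trans k0
    rw [e, norm_smul, Real.norm_eq_abs, abs_of_nonneg (by positivity),
      div_mul_cancel₀ _ n0.ne'] at k2
    linarith
  obtain ⟨y0, hy0⟩ : Y.Nonempty := by
    by_contra c
    rw [not_nonempty_iff_eq_empty] at c
    have := bd (EuclideanSpace.single ⟨0, hd⟩ 1) (by simp [c])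
    simpa using congrArg (fun z : E d => z ⟨0, hd⟩) this
  let L : (E d × ℝ) →ₗ[ℝ] (Y → ℝ) :=
    { toFun := fun w i => w.2 - ⟪i.1, w.1⟫
      map_add' := fun w z => by ext i; simp [inner_add_right]; ring
      map_smul' := fun c w => by ext i; simp [inner_smul_right]; ring }
  have La : ∀ (x : E d) (t : ℝ) (i : Y), L (x, t) i = t - ⟪i.1, x⟫ := fun _ _ _ => rfl
  have Linj : Function.Injective L := by
    rw [injective_iff_map_eq_zero]
    rintro ⟨x, t⟩ h
    have k : ∀ y ∈ Y, ⟪y, x⟫ = t := fun y hy => by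
      have := congrFun h ⟨y, hy⟩
      rw [La] at this
      exact (sub_eq_zero.1 this).symm
    have x0 : x = 0 := by
      rcases le_total t 0 with c | c
      · exact bd x fun y hy => (k y hy).le.trans c
      · exact neg_eq_zero.1 (bd (-x) fun y hy => by rw [inner_neg_right, k y hy]; linarith)
    have := k y0 hy0
    simp [x0] at this
    simp [x0, ← this]
  obtain ⟨ρ, M, ρ0, Ms, hneg, hvan⟩ := form (LinearMap.range L) (by
    rw [LinearMap.finrank_range_of_inj Linj, Module.finrank_prod, finrank_euclideanSpace_fin,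
      Module.finrank_self, ← Nat.card_eq_fintype_card, Nat.card_coe_set_eq]
    omega)
  set a := ∑ i, ρ i with ha
  have a0 : 0 < a := Finset.sum_pos (fun i _ => ρ0 i) ⟨⟨y0, hy0⟩, Finset.mem_univ _⟩
  set b : E d := ∑ i : Y, ρ i • i.1 with hb'
  have lam : ∀ (x : E d) (t : ℝ), ∑ i, ρ i * L (x, t) i = a * t - ⟪b, x⟫ := by
    intro x t
    simp only [La, mul_sub, Finset.sum_sub_distrib, ← Finset.sum_mul, hb', sum_inner,
      real_inner_smul_left, ha]
  let J : E d →ₗ[ℝ] (Y → ℝ) :=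
    L ∘ₗ LinearMap.prod LinearMap.id (a⁻¹ • (innerSL ℝ b).toLinearMap)
  have Ja : ∀ x, J x = L (x, a⁻¹ * ⟪b, x⟫) := fun _ => rfl
  let B : LinearMap.BilinForm ℝ (E d) := LinearMap.mk₂ ℝ
    (fun x z => -∑ i, ∑ j, M i j * J x i * J z j)
    (fun x x' z => by simp [mul_add, add_mul, Finset.sum_add_distrib]; ring)
    (fun c x z => by
      simp only [map_smul, Pi.smul_apply, smul_eq_mul, mul_neg, Finset.mul_sum, neg_inj]
      exact Finset.sum_congr rfl fun i _ => Finset.sum_congr rfl fun j _ => by ring)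
    (fun x z z' => by simp [mul_add, Finset.sum_add_distrib]; ring)
    (fun c x z => by
      simp only [map_smul, Pi.smul_apply, smul_eq_mul, mul_neg, Finset.mul_sum, neg_inj]
      exact Finset.sum_congr rfl fun i _ => Finset.sum_congr rfl fun j _ => by ring)
  have Ba : ∀ x z, B x z = -∑ i, ∑ j, M i j * J x i * J z j := fun _ _ => rfl
  obtain ⟨A, hA⟩ := sqrtform B ⟨fun x z => by
      rw [RingHom.id_apply, Ba, Ba, Finset.sum_comm, neg_inj]
      exact Finset.sum_congr rfl fun i _ => Finset.sum_congr rfl fun j _ => by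
        rw [Ms j i]; ring⟩
    (fun x hx => by
      have := hneg (J x) ⟨_, (Ja x).symm⟩ (by rw [Ja, lam]; field_simp; ring)
        fun c => hx (congrArg Prod.fst (Linj (((Ja x).symm.trans c).trans (map_zero L).symm)))
      rw [Ba]
      exact neg_pos.2 this)
  let h : E d →ₗ[ℝ] ℝ := ∑ i, ∑ j, (M i j * a⁻¹) • (LinearMap.proj i ∘ₗ J)
  have ha' : ∀ x, h x = ∑ i, ∑ j, M i j * a⁻¹ * J x i := fun x => by
    simp [h, LinearMap.sum_apply]
  let c : E d := (InnerProductSpace.toDual ℝ (E d)).symm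
    (LinearMap.toContinuousLinearMap (h ∘ₗ A.symm.toLinearMap))
  have hc' : ∀ x, ⟪c, A x⟫ = h x := fun x => by
    simp [c, InnerProductSpace.toDual_symm_apply]
  have nn : ∀ v ∈ P, ∀ i, 0 ≤ L (v - o, 1) i := fun v hv i => by
    rw [La]; linarith [(hP v).1 hv i.1 i.2]
  have lp : ∀ v ∈ P, 0 < a - ⟪b, v - o⟫ := by
    intro v hv
    have e := lam (v - o) 1
    rw [mul_one] at e
    rw [← e]
    have : L (v - o, 1) ≠ 0 := fun c => by
      simpa using congrArg Prod.snd (Linj (c.trans (map_zero L).symm))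
    obtain ⟨i, hi⟩ := Function.ne_iff.1 this
    exact Finset.sum_pos' (fun i _ => mul_nonneg (ρ0 i).le (nn v hv i))
      ⟨i, Finset.mem_univ _, mul_pos (ρ0 i) (lt_of_le_of_ne (nn v hv i) (Ne.symm hi))⟩
  refine ⟨a, b, c, √((∑ i, ∑ j, M i j) * a⁻¹ ^ 2 + ‖c‖ ^ 2), A, a0, lp, fun v hv => ?_⟩
  have q := hvan (L (v - o, 1)) ⟨_, rfl⟩ (nn v hv.1) (by
    rintro _ ⟨⟨x, t⟩, rfl⟩ hw
    obtain ⟨τ, τ0, hτ⟩ := small (L (v - o, 1)) (fun i => ⟪i.1, x - t • (v - o)⟫) (nn v hv.1)
      fun i hi => by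
        have := hw i hi
        rw [La] at this hi
        rw [inner_sub_right, real_inner_smul_right]
        linear_combination -this + t * hi
    have := ext_zero (z := τ • (x - t • (v - o))) hv
      ((hP _).2 fun y hy => by
        have := (hτ ⟨y, hy⟩).1
        rw [La] at this
        rw [add_sub_right_comm, inner_add_right, real_inner_smul_right]
        linarith)
      ((hP _).2 fun y hy => by
        have := (hτ ⟨y, hy⟩).2
        rw [La] at this
        rw [sub_right_comm, inner_sub_right y (v - o), real_inner_smul_right]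
        linarith)
    have e := sub_eq_zero.1 ((smul_eq_zero.1 this).resolve_left τ0.ne')
    exact ⟨t, by rw [← map_smul, e]; simp⟩)
  have l0 := lp v hv.1
  set l := a - ⟪b, v - o⟫ with hl
  have e : ∀ i, L (v - o, 1) i = J (v - o) i + l * a⁻¹ := fun i => by
    rw [Ja, La, La, hl]; field_simp; ring
  have q2 : QQ M (L (v - o, 1)) = -‖A (v - o)‖ ^ 2 + 2 * l * h (v - o) +
      l ^ 2 * ((∑ i, ∑ j, M i j) * a⁻¹ ^ 2) := by
    have s2 : ∑ i, ∑ j, M i j * a⁻¹ * J (v - o) j = h (v - o) := by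
      rw [ha', Finset.sum_comm]
      exact Finset.sum_congr rfl fun i _ => Finset.sum_congr rfl fun j _ => by rw [Ms j i]
    rw [hA, Ba, neg_neg, two_mul, add_mul]
    nth_rewrite 1 [← s2]
    rw [ha']
    simp only [QQ, e, Finset.mul_sum, Finset.sum_mul, ← Finset.sum_add_distrib]
    exact Finset.sum_congr rfl fun i _ => Finset.sum_congr rfl fun j _ => by ring
  rw [mem_sphere_iff_norm, ← Real.sqrt_sq (norm_nonneg (l⁻¹ • A (v - o) - c)),
    norm_sub_sq_real, norm_smul, real_inner_smul_left, real_inner_comm, hc', mul_pow,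
    Real.norm_eq_abs, sq_abs]
  congr 1
  rw [q2] at q
  field_simp
  field_simp at q
  linarith

theorem main (d : ℕ) (S : Finset (E d))
    (hi : (interior (convexHull ℝ (S : Set (E d)))).Nonempty)
    (hf : {F : Set (E d) | IsExposed ℝ (convexHull ℝ (S : Set (E d))) F ∧ F.Nonempty ∧
      finrank ℝ (vectorSpan ℝ F) + 1 = d}.ncard ≤ d + 3) :
    ∃ T : Finset (E d), ∃ c : E d, ∃ r : ℝ, (T : Set (E d)) ⊆ Metric.sphere c r ∧
      ∃ e : E d → E d, Set.BijOn e ((convexHull ℝ (S : Set (E d))).extremePoints ℝ)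
          ((convexHull ℝ (T : Set (E d))).extremePoints ℝ) ∧
        ∀ A ⊆ (convexHull ℝ (S : Set (E d))).extremePoints ℝ,
          (IsExposed ℝ (convexHull ℝ (S : Set (E d))) (convexHull ℝ A) ↔
            IsExposed ℝ (convexHull ℝ (T : Set (E d))) (convexHull ℝ (e '' A))) := by
  classical
  rcases Nat.eq_zero_or_pos d with rfl | hd
  · exact ⟨S, 0, 0, fun x _ => by simp [Subsingleton.elim x 0], id, bijOn_id _,
      fun A _ => by rw [image_id]⟩
  obtain ⟨o, ho⟩ := hi
  obtain ⟨Y, hY, hc, hP⟩ := hrep hd S o ho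
  have comp := S.finite_toSet.isCompact_convexHull ℝ
  obtain ⟨a, b, c, r, A, a0, lp, sp⟩ := proj hd _ comp.isBounded o Y hY (hc.trans hf) hP
  set V := (convexHull ℝ (S : Set (E d))).extremePoints ℝ with hV
  have Vf : V.Finite := S.finite_toSet.subset extremePoints_convexHull_subset
  have PV : convexHull ℝ V = convexHull ℝ (S : Set (E d)) := by
    rw [← closure_convexHull_extremePoints comp (convex_convexHull ℝ _),
      (Vf.isCompact_convexHull ℝ).isClosed.closure_eq]
  let e : E d → E d := fun v => (a - ⟪b, v - o⟫)⁻¹ • A (v - o)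
  have lv : ∀ v ∈ V, 0 < a - ⟪b, v - o⟫ := fun v hv => lp v hv.1
  have fw : ∀ (k : ℝ) (f : E d →L[ℝ] ℝ), ∃ (k' : ℝ) (f' : E d →L[ℝ] ℝ), ∀ v ∈ V,
      k + f v = (a - ⟪b, v - o⟫) * (k' + f' (e v)) := by
    intro k f
    refine ⟨(k + f o) / a, (f + ((k + f o) / a) • innerSL ℝ b) ∘L
      LinearMap.toContinuousLinearMap A.symm.toLinearMap, fun v hv => ?_⟩
    have := (lv v hv).ne'
    simp only [e, ContinuousLinearMap.comp_apply, map_smul, LinearMap.coe_toContinuousLinearMap',
      LinearEquiv.coe_coe, LinearEquiv.symm_apply_apply, ContinuousLinearMap.add_apply,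
      ContinuousLinearMap.smul_apply, innerSL_apply_apply, smul_eq_mul]
    rw [map_sub f]
    field_simp
    ring
  have bw : ∀ (k' : ℝ) (f' : E d →L[ℝ] ℝ), ∃ (k : ℝ) (f : E d →L[ℝ] ℝ), ∀ v ∈ V,
      k + f v = (a - ⟪b, v - o⟫) * (k' + f' (e v)) := by
    intro k' f'
    let g : E d →L[ℝ] ℝ := f' ∘L LinearMap.toContinuousLinearMap A.toLinearMap - k' • innerSL ℝ b
    refine ⟨k' * a - g o, g, fun v hv => ?_⟩
    have := (lv v hv).ne'
    have e1 : g v - g o = f' (A (v - o)) - k' * ⟪b, v - o⟫ := by rw [← map_sub]; simp [g]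
    simp only [e, map_smul, smul_eq_mul]
    field_simp
    linarith
  have inj : InjOn e V := by
    intro v hv w hw h
    obtain ⟨k', f', hk⟩ := fw 1 0
    have h1 := hk v hv
    have h2 := hk w hw
    rw [h] at h1
    simp only [ContinuousLinearMap.zero_apply, add_zero] at h1 h2
    have ne : k' + f' (e w) ≠ 0 := by intro z; simp [z] at h2
    have l : a - ⟪b, v - o⟫ = a - ⟪b, w - o⟫ := by
      apply mul_right_cancel₀ ne
      exact h1.symm.trans h2
    simp only [e, l] at h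
    have := A.injective (smul_right_injective _ (inv_ne_zero (lv w hw).ne') h)
    simpa using this
  have eS : e '' V ⊆ Metric.sphere c r := by rintro _ ⟨v, hv, rfl⟩; exact sp v hv
  have ext : e '' V ⊆ (convexHull ℝ (e '' V)).extremePoints ℝ := by
    intro t ht
    have k : ∀ z ∈ e '' V, r ^ 2 + ⟪t - c, c⟫ + (-innerSL ℝ (t - c)) z = ‖t - z‖ ^ 2 / 2 := by
      intro z hz
      have n1 := mem_sphere_iff_norm.1 (eS ht)
      have n2 := mem_sphere_iff_norm.1 (eS hz)
      have := norm_sub_sq_real (t - c) (z - c)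
      rw [sub_sub_sub_cancel_right, n1, n2, inner_sub_right] at this
      simp only [ContinuousLinearMap.neg_apply, innerSL_apply_apply]
      linarith
    have := exposed_of (V := e '' V) (A := {t}) (singleton_subset_iff.2 ht)
      (Or.inr ⟨_, _, fun z hz => by rw [k z hz]; positivity, fun z hz => by
        rw [k z hz, mem_singleton_iff, eq_comm (a := z)]; simp [sub_eq_zero]⟩)
    rw [convexHull_singleton] at this
    exact isExtreme_singleton.1 this.isExtreme
  refine ⟨(Vf.image e).toFinset, c, r, by simpa using eS, e, ?_, fun B hB => ?_⟩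
  · rw [Finite.coe_toFinset, Subset.antisymm extremePoints_convexHull_subset ext]
    exact inj.bijOn_image
  rw [Finite.coe_toFinset, ← PV, exposed_iff hB (by rw [PV]), exposed_iff (image_mono hB) ext]
  have mm : ∀ v ∈ V, (e v ∈ e '' B ↔ v ∈ B) := fun v hv => inj.mem_image_iff hB hv
  constructor
  · rintro (rfl | ⟨k, f, h1, h2⟩)
    · exact Or.inl (image_empty _)
    obtain ⟨k', f', hk⟩ := fw k f
    refine Or.inr ⟨k', f', ?_, ?_⟩
    · rintro _ ⟨v, hv, rfl⟩
      have := h1 v hv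
      rw [hk v hv] at this
      exact (mul_nonneg_iff_of_pos_left (lv v hv)).1 this
    · rintro _ ⟨v, hv, rfl⟩
      rw [mm v hv, ← h2 v hv, hk v hv, mul_eq_zero, or_iff_right (lv v hv).ne']
  · rintro (h | ⟨k', f', h1, h2⟩)
    · exact Or.inl (image_eq_empty.1 h)
    obtain ⟨k, f, hk⟩ := bw k' f'
    refine Or.inr ⟨k, f, fun v hv => ?_, fun v hv => ?_⟩
    · rw [hk v hv]; exact mul_nonneg (lv v hv).le (h1 _ ⟨v, hv, rfl⟩)
    · rw [← mm v hv, ← h2 _ ⟨v, hv, rfl⟩, hk v hv, mul_eq_zero, or_iff_right (lv v hv).ne']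

end Pool.Agent.H.MP_d56329_co
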